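import Pool.Agent.W_MP_e98908_an_h89.Lam

/-!
# MP_e98908_an : orthogonal laminates attaining the Bergman-Milton bound
-/

namespace W_MP_e98908_an

open Matrix Complex

/-- Arithmetic mean. -/
noncomputable def am (θ : ℝ) (x y : ℂ) : ℂ := θ * x + (1 - θ : ℂ) * y

/-- Harmonic mean. -/
noncomputable def hm (θ : ℝ) (x y : ℂ) : ℂ := x * y / ((1 - θ : ℂ) * x + θ * y)

/-- `x` lists the three principal conductivity functions of a laminate with coordinate lamination
directions, in every order. -/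
def DL (x : ℂ → Fin 3 → ℂ) : Prop :=
  (∀ σ ∈ slitPlane, ∀ i, HP (kap σ) (x σ i)) ∧
  ∀ π : Equiv.Perm (Fin 3), ∃ L : CFun, IsLaminate coordDirs L ∧
    ∀ σ ∈ slitPlane, L σ = diagonal (fun j => x σ (π j))

theorem DL.phase {s : ℂ → ℂ} (hs : IsPhase s) : DL (fun σ _ => s σ) :=
  ⟨fun _ hσ _ => hs.hp hσ, fun _ => ⟨_, hs.lam, fun σ _ => smul_one_eq_diagonal (s σ)⟩⟩

theorem DL.lay (i : Fin 3) {θ : ℝ} (h0 : 0 ≤ θ) (h1 : θ ≤ 1) {x y : ℂ → Fin 3 → ℂ}
    (hx : DL x) (hy : DL y) :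
    DL (fun σ j => if j = i then hm θ (x σ i) (y σ i) else am θ (x σ j) (y σ j)) := by
  refine ⟨fun σ hσ j => ?_, fun π => ?_⟩
  · by_cases hj : j = i
    · simp only [hj, if_true]
      exact (hx.1 σ hσ i).harm (hy.1 σ hσ i) h0 h1
    · simp only [hj, if_false]
      exact (hx.1 σ hσ j).comb (hy.1 σ hσ j) h0 h1
  · obtain ⟨A, hA, hAσ⟩ := hx.2 π
    obtain ⟨B, hB, hBσ⟩ := hy.2 π
    have hmem : (Pi.single (π.symm i) 1 : Fin 3 → ℝ) ∈ coordDirs := ⟨π.symm i, rfl⟩
    refine ⟨_, IsLaminate.layer hmem h0 h1 hA hB, ?_⟩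
    intro σ hσ
    show layer (Pi.single (π.symm i) 1) θ (A σ) (B σ) = _
    rw [hAσ σ hσ, hBσ σ hσ, layer_diagonal]
    · congr 1
      ext j
      have e : (j = π.symm i) ↔ (π j = i) := by
        constructor
        · rintro rfl; simp
        · intro h; rw [← h]; simp
      by_cases hj : π j = i
      · have hj' := e.2 hj
        simp only [hj', if_true, Equiv.apply_symm_apply]
        rfl
      · have hj' : ¬ j = π.symm i := fun h => hj (e.1 h)
        simp only [hj, hj', if_false]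
        rfl
    · simp only [Equiv.apply_symm_apply]
      exact ((hx.1 σ hσ i).comb' (hy.1 σ hσ i) h0 h1).ne_zero

theorem DL.perm {x : ℂ → Fin 3 → ℂ} (hx : DL x) (τ : Equiv.Perm (Fin 3)) :
    DL (fun σ j => x σ (τ j)) := by
  refine ⟨fun σ hσ i => hx.1 σ hσ _, fun π => ?_⟩
  obtain ⟨L, hL, h⟩ := hx.2 (π.trans τ)
  exact ⟨L, hL, fun σ hσ => by rw [h σ hσ]; rfl⟩

theorem DL.congr {x y : ℂ → Fin 3 → ℂ} (hx : DL x) (h : ∀ σ ∈ slitPlane, ∀ i, x σ i = y σ i) :
    DL y := by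
  refine ⟨fun σ hσ i => by rw [← h σ hσ i]; exact hx.1 σ hσ i, fun π => ?_⟩
  obtain ⟨L, hL, h'⟩ := hx.2 π
  refine ⟨L, hL, fun σ hσ => ?_⟩
  rw [h' σ hσ]
  congr 1
  ext j
  exact h σ hσ _

theorem hm_self {θ : ℝ} {x : ℂ} (hx : x ≠ 0) : hm θ x x = x := by
  unfold hm
  have : (1 - θ : ℂ) * x + θ * x = x := by ring
  rw [this]
  field_simp

/-- Exact isotropization, by three further laminations. -/
theorem DL.iso {x : ℂ → Fin 3 → ℂ} (hx : DL x) :
    IsoLam (fun σ => (x σ 0 + x σ 1 + x σ 2) / 3) := by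
  -- average the axes 0 and 1
  have h1 : DL (fun σ j => if j = 2 then x σ 2 else (x σ 0 + x σ 1) / 2) := by
    refine ((DL.lay 2 (θ := 1 / 2) (by norm_num) (by norm_num) hx
      (hx.perm (Equiv.swap 0 1)))).congr fun σ hσ i => ?_
    have h2 := (hx.1 σ hσ 2).ne_zero
    have e : (Equiv.swap (0 : Fin 3) 1) 2 = 2 := by decide
    have e0 : (Equiv.swap (0 : Fin 3) 1) 0 = 1 := by decide
    have e1 : (Equiv.swap (0 : Fin 3) 1) 1 = 0 := by decide
    fin_cases i
    · simp [am, e0]; ring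
    · simp [am, e1]; ring
    · simp [e, hm_self h2]
  have h2 : DL (fun σ j => if j = 0 then (x σ 0 + x σ 1) / 2 else
      if j = 1 then (x σ 0 + x σ 1 + x σ 2) / 3 else (x σ 0 + x σ 1) / 6 + 2 * x σ 2 / 3) := by
    refine ((DL.lay 0 (θ := 2 / 3) (by norm_num) (by norm_num) h1
      (h1.perm (Equiv.swap 1 2)))).congr fun σ hσ i => ?_
    have h2 := (h1.1 σ hσ 0).ne_zero
    have e : (Equiv.swap (1 : Fin 3) 2) 0 = 0 := by decide
    have e0 : (Equiv.swap (1 : Fin 3) 2) 1 = 2 := by decide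
    have e1 : (Equiv.swap (1 : Fin 3) 2) 2 = 1 := by decide
    simp only [show ¬ ((0 : Fin 3) = 2) by decide, if_false] at h2
    fin_cases i
    · simp [e, hm_self h2]
    · simp [am, e0]; ring
    · simp [am, e1]; ring
  have h3 : DL (fun σ _ => (x σ 0 + x σ 1 + x σ 2) / 3) := by
    refine ((DL.lay 1 (θ := 1 / 2) (by norm_num) (by norm_num) h2
      (h2.perm (Equiv.swap 0 2)))).congr fun σ hσ i => ?_
    have h3 := (h2.1 σ hσ 1).ne_zero
    have e : (Equiv.swap (0 : Fin 3) 2) 1 = 1 := by decide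
    have e0 : (Equiv.swap (0 : Fin 3) 2) 0 = 2 := by decide
    have e1 : (Equiv.swap (0 : Fin 3) 2) 2 = 0 := by decide
    simp only [show ¬ ((1 : Fin 3) = 0) by decide, if_false, if_true] at h3
    fin_cases i
    · simp [am, e0]; ring
    · simp [e, hm_self h3]
    · simp [am, e1]; ring
  obtain ⟨L, hL, h⟩ := h3.2 (Equiv.refl _)
  refine ⟨L, hL, fun σ hσ => ⟨?_, h3.1 σ hσ 0⟩⟩
  rw [h σ hσ, smul_one_eq_diagonal]

/-- **The algebra of the construction.** -/
theorem arc_algebra {u v : ℂ} {z y : ℝ} (hz : 0 < z) (hz1 : z < 1) (hw : 0 < 1 - y - z)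
    (hX : u + z * (v - u) ≠ 0) (hY : u + y * (v - u) ≠ 0) (hu : u ≠ 0)
    {p t q : ℝ} (hp : p = (1 - y - z) / z) (ht : t = y / (1 - z))
    (hq : q = (2 - y - 3 * z) / (2 * (1 - y - z))) :
    (am q (am p (am (1 - y) v u) (am (1 - t) (hm (1 - z) v u) u)) u +
      am q (hm p (am (1 - y) v u) (am (1 - t) (am (1 - z) v u) u)) u +
      hm q (am p (hm (1 - y) v u) (hm (1 - t) (am (1 - z) v u) u)) u) / 3 =
    u + (2 - y - 3 * z) * (v - u) -
      (2 - y - 3 * z) * (1 - (2 - y - 3 * z)) / 3 * (v - u) ^ 2 / (u + z * (v - u)) := by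
  have hzc : (z : ℂ) ≠ 0 := by exact_mod_cast hz.ne'
  have hz1c : (1 - z : ℂ) ≠ 0 := by
    have : (1 - z : ℝ) ≠ 0 := by linarith
    exact_mod_cast this
  have hwc : (1 - y - z : ℂ) ≠ 0 := by exact_mod_cast hw.ne'
  -- the constituents
  have e1 : hm (1 - z) v u = v * u / (u + z * (v - u)) := by
    unfold hm; congr 1; push_cast; ring
  have e2 : hm (1 - y) v u = v * u / (u + y * (v - u)) := by
    unfold hm; congr 1; push_cast; ring
  have e3 : am (1 - z) v u = u + (1 - z) * (v - u) := by unfold am; push_cast; ring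
  have e4 : am (1 - y) v u = u + (1 - y) * (v - u) := by unfold am; push_cast; ring
  have htz : (t : ℂ) * (1 - z) = y := by
    rw [ht]; push_cast; field_simp
  have hpz : (p : ℂ) * z = 1 - y - z := by
    rw [hp]; push_cast; field_simp
  have hqw : (q : ℂ) * (2 * (1 - y - z)) = 2 - y - 3 * z := by
    rw [hq]; push_cast; field_simp
  have e5 : am (1 - t) (am (1 - z) v u) u = u + (1 - z - y) * (v - u) := by
    rw [e3]; unfold am; push_cast
    linear_combination (-(v - u)) * htz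
  have e6 : hm (1 - t) (am (1 - z) v u) u = (u + (1 - z) * (v - u)) * u / (u + y * (v - u)) := by
    rw [e3]; unfold hm; congr 1; push_cast
    linear_combination (v - u) * htz
  have e7 : hm p (am (1 - y) v u) (am (1 - t) (am (1 - z) v u) u) =
      (u + (1 - y) * (v - u)) * (u + (1 - z - y) * (v - u)) / (u + z * (v - u)) := by
    rw [e5, e4]; unfold hm; congr 1
    linear_combination (-(v - u)) * hpz
  have e8 : am p (hm (1 - y) v u) (hm (1 - t) (am (1 - z) v u) u) =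
      u * (u + (2 - y - 2 * z) * (v - u)) / (u + y * (v - u)) := by
    rw [e6, e2]; unfold am
    rw [eq_div_iff hY]
    field_simp
    linear_combination (v - u) * hpz
  have e9 : hm q (am p (hm (1 - y) v u) (hm (1 - t) (am (1 - z) v u) u)) u =
      u * (u + (2 - y - 2 * z) * (v - u)) / (u + z * (v - u)) := by
    rw [e8]; unfold hm
    have e : (1 - q : ℂ) * (u * (u + (2 - y - 2 * z) * (v - u)) / (u + y * (v - u))) + q * u =
        u * (u + z * (v - u)) / (u + y * (v - u)) := by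
      rw [eq_div_iff hY]
      field_simp
      linear_combination (-(v - u)) * hqw
    rw [e]
    field_simp
  rw [e9, e7, e1]
  unfold am
  rw [hp, ht, hq]
  push_cast
  field_simp
  ring

theorem isoLam_arc {u v : ℂ → ℂ} (hu : IsPhase u) (hv : IsPhase v) {f z : ℝ} (hf : 0 < f)
    (h1 : (2 - f) / 4 ≤ z) (h2 : z ≤ (2 - f) / 3) (h3 : z ≤ 1 - f) :
    IsoLam (fun σ => u σ + f * (v σ - u σ) -
      f * (1 - f) / 3 * (v σ - u σ) ^ 2 / (u σ + z * (v σ - u σ))) := by
  obtain ⟨y, hy⟩ : ∃ y : ℝ, y = 2 - 3 * z - f := ⟨_, rfl⟩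
  have hz : 0 < z := by linarith
  have hz1 : z < 1 := by linarith
  have hy0 : 0 ≤ y := by linarith
  have hw : 0 < 1 - y - z := by linarith
  have hy1 : y ≤ 1 := by linarith
  have hfy : (f : ℂ) = 2 - y - 3 * z := by
    rw [hy]; push_cast; ring
  have hz1' : 0 < 1 - z := by linarith
  -- the proportions
  obtain ⟨p, hp⟩ : ∃ p : ℝ, p = (1 - y - z) / z := ⟨_, rfl⟩
  obtain ⟨t, ht⟩ : ∃ t : ℝ, t = y / (1 - z) := ⟨_, rfl⟩
  obtain ⟨q, hq⟩ : ∃ q : ℝ, q = (2 - y - 3 * z) / (2 * (1 - y - z)) := ⟨_, rfl⟩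
  have hp0 : 0 ≤ p := by rw [hp]; positivity
  have hp1 : p ≤ 1 := by rw [hp, div_le_one hz]; linarith
  have ht0 : 0 ≤ t := by rw [ht]; positivity
  have ht1 : t ≤ 1 := by rw [ht, div_le_one hz1']; linarith
  have hq0 : 0 ≤ q := by
    rw [hq]
    apply div_nonneg <;> linarith
  have hq1 : q ≤ 1 := by
    rw [hq, div_le_one (by linarith)]; linarith
  -- the laminates
  have hU : DL (fun σ j => if j = 2 then hm (1 - y) (v σ) (u σ) else am (1 - y) (v σ) (u σ)) :=
    DL.lay 2 (by linarith) (by linarith) (DL.phase hv) (DL.phase hu)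
  have hV0 : DL (fun σ j => if j = 0 then hm (1 - z) (v σ) (u σ) else am (1 - z) (v σ) (u σ)) :=
    DL.lay 0 (by linarith) (by linarith) (DL.phase hv) (DL.phase hu)
  have hV := DL.lay 2 (θ := 1 - t) (by linarith) (by linarith) hV0 (DL.phase hu)
  have hW := DL.lay 1 hp0 hp1 hU hV
  have hF := DL.lay 2 hq0 hq1 hW (DL.phase hu)
  refine (DL.iso hF).congr fun σ hσ => ?_
  have hXn : u σ + z * (v σ - u σ) ≠ 0 := by
    have := ((hv.hp hσ).comb (hu.hp hσ) hz.le hz1.le).ne_zero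
    intro h0; apply this; rw [← h0]; ring
  have hYn : u σ + y * (v σ - u σ) ≠ 0 := by
    have := ((hv.hp hσ).comb (hu.hp hσ) hy0 hy1).ne_zero
    intro h0; apply this; rw [← h0]; ring
  have key := arc_algebra (u := u σ) (v := v σ) hz hz1 hw hXn hYn (hu.hp hσ).ne_zero hp ht hq
  rw [hfy]
  rw [← key]
  simp [show ¬ ((0 : Fin 3) = 2) by decide, show ¬ ((1 : Fin 3) = 2) by decide,
    show ¬ ((0 : Fin 3) = 1) by decide, show ¬ ((2 : Fin 3) = 0) by decide,
    show ¬ ((2 : Fin 3) = 1) by decide, show ¬ ((1 : Fin 3) = 0) by decide]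

/-- Both ranges of the parameters. -/
theorem arc (f z : ℝ) (hf0 : 0 < f) (hf1 : f < 1)
    (h : ((2 - f) / 4 ≤ z ∧ z ≤ (2 - f) / 3 ∧ z ≤ 1 - f) ∨
      ((2 - f) / 3 ≤ z ∧ 1 - f ≤ z ∧ z ≤ (3 - f) / 4)) :
    IsoLam (fun σ => 1 + f * (σ - 1) - f * (1 - f) / 3 * (σ - 1) ^ 2 / (1 + z * (σ - 1))) := by
  rcases h with ⟨h1, h2, h3⟩ | ⟨h1, h2, h3⟩
  · exact isoLam_arc (u := fun _ => 1) (v := fun σ => σ) (Or.inr fun _ => rfl)
      (Or.inl fun _ => rfl) hf0 h1 h2 h3
  · refine (isoLam_arc (u := fun σ => σ) (v := fun _ => 1) (Or.inl fun _ => rfl)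
      (Or.inr fun _ => rfl) (f := 1 - f) (z := 1 - z) (by linarith) (by linarith) (by linarith)
      (by linarith)).congr fun σ _ => ?_
    have e : (σ + ((1 - z : ℝ) : ℂ) * (1 - σ)) = 1 + z * (σ - 1) := by push_cast; ring
    rw [e]
    push_cast
    ring

end W_MP_e98908_an
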