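import Mathlib

/-!
# MP_e98908_an : the extremal measure of the Bergman-Milton bound
-/

namespace W_MP_e98908_an

open MeasureTheory Set Complex

theorem int_cont {μ : Measure ℝ} [IsFiniteMeasure μ] (hμ : ∀ᵐ y ∂μ, y ∈ Icc (0 : ℝ) 1)
    {E : Type*} [NormedAddCommGroup E] {h : ℝ → E} (hc : ContinuousOn h (Icc 0 1)) :
    Integrable h μ := by
  have h1 : μ.restrict (Icc (0 : ℝ) 1) = μ := Measure.restrict_eq_self_of_ae_mem hμ
  rw [← h1]
  exact hc.integrableOn_compact isCompact_Icc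

/-- A measure on `[0,1]` with given mass and first moment whose Stieltjes transform takes at one
nonreal point the value of the extremal measure (with atoms at `0` and `z`) is that measure. -/
theorem extremal {μ : Measure ℝ} [IsFiniteMeasure μ] (hμ : ∀ᵐ y ∂μ, y ∈ Icc (0 : ℝ) 1)
    {f m z : ℝ} (hz : 0 < z) (h0 : μ.real univ = f) (h1 : ∫ y, y ∂μ = m)
    {s₀ : ℂ} (hs₀ : s₀.im ≠ 0)
    (h2 : ∫ y, (s₀ - y)⁻¹ ∂μ = f / s₀ + m / (s₀ * (s₀ - z))) :
    ∀ᵐ y ∂μ, y = 0 ∨ y = z := by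
  set p := s₀.re with hp
  set q := s₀.im with hq
  obtain ⟨c0, hc0⟩ : ∃ c0 : ℝ, c0 = 2 * p - 2 * z := ⟨_, rfl⟩
  obtain ⟨c1, hc1⟩ : ∃ c1 : ℝ, c1 = z ^ 2 - (p ^ 2 + q ^ 2) + 2 * p * c0 := ⟨_, rfl⟩
  obtain ⟨d, hd⟩ : ∃ d : ℝ, d = (c1 * p - c0 * (p ^ 2 + q ^ 2)) / q := ⟨_, rfl⟩
  have hne : ∀ y : ℝ, s₀ - y ≠ 0 := by
    intro y h
    apply hs₀
    have := congrArg Complex.im h
    simpa using this
  have hN : ∀ y : ℝ, 0 < (p - y) ^ 2 + q ^ 2 := by
    intro y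
    have : 0 < q ^ 2 := by positivity
    positivity
  have hre : ∀ y : ℝ, ((s₀ - y)⁻¹).re = (p - y) / ((p - y) ^ 2 + q ^ 2) := by
    intro y
    rw [inv_re, normSq_apply]
    simp only [sub_re, ofReal_re, sub_im, ofReal_im, sub_zero]
    rw [← hp, ← hq]
    congr 1; ring
  have him : ∀ y : ℝ, ((s₀ - y)⁻¹).im = - q / ((p - y) ^ 2 + q ^ 2) := by
    intro y
    rw [inv_im, normSq_apply]
    simp only [sub_re, ofReal_re, sub_im, ofReal_im, sub_zero]
    rw [← hp, ← hq]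
    congr 1; ring
  have hK : ∀ y : ℝ, y + c0 - c1 * ((s₀ - y)⁻¹).re - d * ((s₀ - y)⁻¹).im =
      y * (y - z) ^ 2 / ((p - y) ^ 2 + q ^ 2) := by
    intro y
    rw [hre, him, hd]
    have hNy := (hN y).ne'
    rw [eq_div_iff hNy]
    have e1 : (y + c0 - c1 * ((p - y) / ((p - y) ^ 2 + q ^ 2)) -
        (c1 * p - c0 * (p ^ 2 + q ^ 2)) / q * (- q / ((p - y) ^ 2 + q ^ 2))) *
        ((p - y) ^ 2 + q ^ 2) = (y + c0) * ((p - y) ^ 2 + q ^ 2) - c1 * (p - y) +
        (c1 * p - c0 * (p ^ 2 + q ^ 2)) := by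
      field_simp
      ring
    rw [e1, hc1, hc0]
    ring
  have hcφ : ContinuousOn (fun y : ℝ => (s₀ - y)⁻¹) (Icc 0 1) := by
    apply ContinuousOn.inv₀
    · fun_prop
    · intro y _; exact hne y
  have hiφ : Integrable (fun y : ℝ => (s₀ - y)⁻¹) μ := int_cont hμ hcφ
  have hiy : Integrable (fun y : ℝ => y) μ := int_cont hμ continuousOn_id
  have hire : Integrable (fun y : ℝ => ((s₀ - y)⁻¹).re) μ := hiφ.re
  have hiim : Integrable (fun y : ℝ => ((s₀ - y)⁻¹).im) μ := hiφ.im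
  have hIre : ∫ y : ℝ, ((s₀ - y)⁻¹).re ∂μ = (∫ y : ℝ, (s₀ - y)⁻¹ ∂μ).re :=
    integral_re hiφ
  have hIim : ∫ y : ℝ, ((s₀ - y)⁻¹).im ∂μ = (∫ y : ℝ, (s₀ - y)⁻¹ ∂μ).im :=
    integral_im hiφ
  have hint : ∫ y : ℝ, (y * (y - z) ^ 2 / ((p - y) ^ 2 + q ^ 2)) ∂μ = 0 := by
    have e1 : ∫ y : ℝ, (y * (y - z) ^ 2 / ((p - y) ^ 2 + q ^ 2)) ∂μ =
        ∫ y : ℝ, (y + c0 - c1 * ((s₀ - y)⁻¹).re - d * ((s₀ - y)⁻¹).im) ∂μ :=
      integral_congr_ae (Filter.Eventually.of_forall fun y => (hK y).symm)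
    have i1 : Integrable (fun y : ℝ => y + c0) μ := hiy.add (integrable_const _)
    have i2 : Integrable (fun y : ℝ => c1 * ((s₀ - y)⁻¹).re) μ := hire.const_mul _
    have i3 : Integrable (fun y : ℝ => y + c0 - c1 * ((s₀ - y)⁻¹).re) μ := i1.sub i2
    have i4 : Integrable (fun y : ℝ => d * ((s₀ - y)⁻¹).im) μ := hiim.const_mul _
    rw [e1, integral_sub i3 i4, integral_sub i1 i2,
      integral_add hiy (integrable_const _), integral_const, integral_const_mul,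
      integral_const_mul, hIre, hIim, h2, h1, h0]
    have k0 := hK 0
    have kz := hK z
    have hzc : (z : ℂ) ≠ 0 := by exact_mod_cast hz.ne'
    have hs0 : s₀ ≠ 0 := by simpa using hne 0
    have e2 : (f / s₀ + m / (s₀ * (s₀ - z)) : ℂ) =
        ((f - m / z : ℝ) : ℂ) * (s₀ - (0 : ℝ))⁻¹ + ((m / z : ℝ) : ℂ) * (s₀ - z)⁻¹ := by
      have := hne z
      push_cast
      rw [sub_zero]
      field_simp
      ring
    rw [e2]
    simp only [add_re, add_im, re_ofReal_mul, im_ofReal_mul]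
    have hzz : m / z * z = m := by field_simp
    simp only [zero_mul, zero_div, sub_self, ne_eq, OfNat.ofNat_ne_zero, not_false_eq_true,
      zero_pow, mul_zero] at k0 kz
    rw [smul_eq_mul]
    linear_combination (f - m / z) * k0 + (m / z) * kz - hzz
  have hnn : ∀ᵐ y ∂μ, 0 ≤ y * (y - z) ^ 2 / ((p - y) ^ 2 + q ^ 2) := by
    filter_upwards [hμ] with y hy
    have := hy.1
    positivity
  have hii : Integrable (fun y : ℝ => y * (y - z) ^ 2 / ((p - y) ^ 2 + q ^ 2)) μ := by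
    apply int_cont hμ
    apply ContinuousOn.div
    · fun_prop
    · fun_prop
    · intro y _; exact (hN y).ne'
  have h3 := (integral_eq_zero_iff_of_nonneg_ae hnn hii).1 hint
  filter_upwards [h3] with y hy
  simp only [Pi.zero_apply] at hy
  rw [div_eq_zero_iff] at hy
  rcases hy with hy | hy
  · rcases mul_eq_zero.1 hy with h | h
    · exact Or.inl h
    · right
      have := pow_eq_zero_iff (two_ne_zero) |>.1 h
      linarith
  · exact absurd hy (hN y).ne'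

theorem extremal_value {μ : Measure ℝ} [IsFiniteMeasure μ] {f m z : ℝ} (hz : 0 < z)
    (h0 : μ.real univ = f) (h1 : ∫ y, y ∂μ = m) (h : ∀ᵐ y ∂μ, y = 0 ∨ y = z)
    (hi : Integrable (fun y : ℝ => y) μ) {s : ℂ} (hs0 : s ≠ 0) (hsz : s ≠ z) :
    ∫ y, (s - y)⁻¹ ∂μ = f / s + m / (s * (s - z)) := by
  have hzc : (z : ℂ) ≠ 0 := by exact_mod_cast hz.ne'
  have hsz' : s - z ≠ 0 := sub_ne_zero.2 hsz
  have e : ∫ y, (s - y)⁻¹ ∂μ = ∫ y, (1 / s + (y : ℂ) * (1 / (s * (s - z)))) ∂μ := by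
    apply integral_congr_ae
    filter_upwards [h] with y hy
    rcases hy with rfl | rfl
    · simp
    · field_simp
      ring
  have hi' : Integrable (fun y : ℝ => (y : ℂ)) μ := hi.ofReal
  rw [e, integral_add (integrable_const _) (hi'.mul_const _), integral_const, integral_mul_const,
    integral_complex_ofReal, h1, h0]
  simp only [real_smul]
  ring

end W_MP_e98908_an
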