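import Pool.Agent.W_MP_e98908_an_h89.Hilb

/-!
# MP_e98908_an : the spectral measure of a composite and its first two moments
-/

namespace W_MP_e98908_an

open MeasureTheory Set Filter Topology Complex ContinuousLinearMap

variable {H : Type*} [NormedAddCommGroup H] [InnerProductSpace ℂ H] [CompleteSpace H]

theorem exists_resolvent_measure' {B : H →L[ℂ] H} (hB : IsSelfAdjoint B)
    (hs : spectrum ℝ B ⊆ Icc 0 1) (w : H) :
    ∃ ρ : Measure ℝ, IsFiniteMeasure ρ ∧ (∀ᵐ y ∂ρ, y ∈ Icc (0 : ℝ) 1) ∧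
      ρ.real univ = ‖w‖ ^ 2 ∧ ∫ y, y ∂ρ = (inner ℂ w (B w)).re ∧
      ∀ s : ℂ, (∀ y ∈ Icc (0 : ℝ) 1, s - y ≠ 0) →
        ∃ x : H, s • x - B x = w ∧ inner ℂ w x = ∫ y, (s - y)⁻¹ ∂ρ := by
  obtain ⟨ρ, hfin, hsupp, hρ⟩ := exists_spectral_measure hB hs w
  refine ⟨ρ, hfin, hsupp, ?_, ?_, fun s hsn => ?_⟩
  · have h1 := hρ (fun _ => 1) continuousOn_const
    rw [cfc_const_one ℝ B] at h1
    simp only [one_apply_eq_self, integral_const, smul_eq_mul, mul_one] at h1
    rw [inner_self_eq_norm_sq_to_K] at h1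
    have h2 : (((‖w‖ ^ 2 : ℝ)) : ℂ) = ((ρ.real univ : ℝ) : ℂ) := by
      rw [← h1]; push_cast; rfl
    exact (ofReal_injective h2).symm
  · have h1 := hρ (fun y => y) continuousOn_id
    rw [cfc_id' ℝ B] at h1
    rw [h1, ofReal_re]
  set r : ℝ → ℝ := fun y => ((s - y)⁻¹).re with hr
  set m : ℝ → ℝ := fun y => ((s - y)⁻¹).im with hm
  have hc : ContinuousOn (fun y : ℝ => (s - y)⁻¹) (Icc 0 1) := by
    apply ContinuousOn.inv₀
    · fun_prop
    · exact hsn
  have hrc : ContinuousOn r (Icc 0 1) := Complex.continuous_re.comp_continuousOn hc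
  have hmc : ContinuousOn m (Icc 0 1) := Complex.continuous_im.comp_continuousOn hc
  have hrc' := hrc.mono hs
  have hmc' := hmc.mono hs
  have hid : ContinuousOn (fun y : ℝ => y) (spectrum ℝ B) := continuousOn_id
  set R : H →L[ℂ] H := cfc r B with hR
  set M : H →L[ℂ] H := cfc m B with hM
  have hBR : B * R = cfc (fun y => y * r y) B := by
    rw [cfc_mul _ _ _ hid hrc', cfc_id' ℝ B]
  have hBM : B * M = cfc (fun y => y * m y) B := by
    rw [cfc_mul _ _ _ hid hmc', cfc_id' ℝ B]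
  have h1 : cfc (fun y => s.re * r y - s.im * m y - y * r y) B = 1 := by
    rw [← cfc_one (R := ℝ) (a := B)]
    apply cfc_congr
    intro y hy
    have h2 := mul_inv_cancel₀ (hsn y (hs hy))
    have h3 := congrArg Complex.re h2
    simp only [Complex.mul_re, Complex.sub_re, Complex.ofReal_re, Complex.sub_im,
      Complex.ofReal_im, sub_zero, Complex.one_re] at h3
    simp only [hr, hm, Pi.one_apply]
    linarith
  have h2 : cfc (fun y => s.re * m y + s.im * r y - y * m y) B = 0 := by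
    rw [← cfc_zero (R := ℝ) (a := B)]
    apply cfc_congr
    intro y hy
    have h2 := mul_inv_cancel₀ (hsn y (hs hy))
    have h3 := congrArg Complex.im h2
    simp only [Complex.mul_im, Complex.sub_re, Complex.ofReal_re, Complex.sub_im,
      Complex.ofReal_im, sub_zero, Complex.one_im] at h3
    simp only [hr, hm, Pi.zero_apply]
    linarith
  have e1 : s.re • R - s.im • M - B * R = 1 := by
    rw [← h1, hBR, cfc_sub (fun y => s.re * r y - s.im * m y) (fun y => y * r y) B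
      (by fun_prop) (by fun_prop), cfc_sub (fun y => s.re * r y) (fun y => s.im * m y) B
      (by fun_prop) (by fun_prop), cfc_const_mul _ _ _ hrc', cfc_const_mul _ _ _ hmc']
  have e2 : s.re • M + s.im • R - B * M = 0 := by
    rw [← h2, hBM, cfc_sub (fun y => s.re * m y + s.im * r y) (fun y => y * m y) B
      (by fun_prop) (by fun_prop), cfc_add B (fun y => s.re * m y) (fun y => s.im * r y)
      (by fun_prop) (by fun_prop), cfc_const_mul _ _ _ hrc', cfc_const_mul _ _ _ hmc']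
  refine ⟨R w + Complex.I • M w, ?_, ?_⟩
  · have f1 : (s.re : ℂ) • R w - (s.im : ℂ) • M w - B (R w) = w := by
      have := congrArg (fun T : H →L[ℂ] H => T w) e1
      simpa using this
    have f2 : (s.re : ℂ) • M w + (s.im : ℂ) • R w - B (M w) = 0 := by
      have := congrArg (fun T : H →L[ℂ] H => T w) e2
      simpa using this
    have hsd : s = s.re + s.im * Complex.I := (Complex.re_add_im s).symm
    have : s • (R w + Complex.I • M w) - B (R w + Complex.I • M w) =
        ((s.re : ℂ) • R w - (s.im : ℂ) • M w - B (R w)) +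
          Complex.I • ((s.re : ℂ) • M w + (s.im : ℂ) • R w - B (M w)) := by
      have hII : ((s.re : ℂ) + s.im * Complex.I) * Complex.I = s.re * Complex.I - s.im := by
        linear_combination (s.im : ℂ) * Complex.I_mul_I
      rw [map_add, map_smul]
      conv_lhs => rw [hsd]
      rw [smul_add, smul_smul, hII]
      module
    rw [this, f1, f2]; simp
  · rw [inner_add_right, inner_smul_right, hρ r hrc, hρ m hmc]
    have hint : Integrable (fun y : ℝ => (s - y)⁻¹) ρ := by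
      have h1 : ρ.restrict (Icc (0 : ℝ) 1) = ρ := Measure.restrict_eq_self_of_ae_mem hsupp
      rw [← h1]
      exact hc.integrableOn_compact isCompact_Icc
    have h3 := integral_re_add_im hint
    rw [← h3, mul_comm Complex.I]
    rfl

/-- The spectral representation of an effective conductivity. -/
theorem hilbert_spec {P : H →L[ℂ] H} (hP2 : ∀ x, P (P x) = P x)
    (hPs : ∀ x y, inner ℂ (P x) y = inner ℂ x (P y))
    (𝓖 : Submodule ℂ H) [𝓖.HasOrthogonalProjection] {w : H} (hw : ‖w‖ = 1) (hw𝓖 : w ∈ 𝓖ᗮ)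
    {g : ℂ → ℂ}
    (hg : ∀ σ ∈ slitPlane, ∀ e, e - w ∈ 𝓖 → (σ • P e + (e - P e)) ∈ 𝓖ᗮ →
      inner ℂ w (σ • P e + (e - P e)) = g σ) :
    ∃ ρ : Measure ℝ, IsFiniteMeasure ρ ∧ (∀ᵐ y ∂ρ, y ∈ Icc (0 : ℝ) 1) ∧
      ρ.real univ = ‖P w‖ ^ 2 ∧ ∫ y, y ∂ρ = ‖𝓖.starProjection (P w)‖ ^ 2 ∧
      (∀ σ ∈ slitPlane, σ ≠ 1 → g σ = 1 - ∫ y, (sp σ - y)⁻¹ ∂ρ) ∧ g 1 = 1 := by
  set Γ : H →L[ℂ] H := 𝓖.starProjection with hΓ
  have hΓs : ∀ x y, inner ℂ (Γ x) y = inner ℂ x (Γ y) := fun x y =>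
    Submodule.inner_starProjection_left_eq_right 𝓖 x y
  have hΓ2 : ∀ x, Γ (Γ x) = Γ x := fun x =>
    Submodule.starProjection_eq_self_iff.2 (Submodule.starProjection_apply_mem 𝓖 x)
  have hΓm : ∀ x, Γ x ∈ 𝓖 := fun x => Submodule.starProjection_apply_mem 𝓖 x
  have hΓw : Γ w = 0 := (Submodule.starProjection_apply_eq_zero_iff 𝓖).2 hw𝓖
  have hww : inner ℂ w w = (1 : ℂ) := by rw [inner_self_eq_norm_sq_to_K, hw]; simp
  set A : H →L[ℂ] H := P.comp (Γ.comp P) with hA
  have hAx : ∀ x, A x = P (Γ (P x)) := fun x => rfl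
  have hq : ∀ x, inner ℂ (A x) x = ((‖Γ (P x)‖ ^ 2 : ℝ) : ℂ) := by
    intro x
    rw [hAx, hPs]
    have : inner ℂ (Γ (P x)) (P x) = inner ℂ (Γ (P x)) (Γ (P x)) := by
      rw [← hΓs, hΓ2]
    rw [this, inner_self_eq_norm_sq_to_K]; push_cast; rfl
  have hle : ∀ x, ‖Γ (P x)‖ ≤ ‖x‖ := fun x =>
    (norm_proj_le hΓ2 hΓs _).trans (norm_proj_le hP2 hPs _)
  have h0 : 0 ≤ A := by
    rw [nonneg_iff_isPositive, isPositive_iff_complex]
    intro x
    rw [hq]
    refine ⟨by rw [RCLike.re_eq_complex_re, ofReal_re], ?_⟩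
    simp only [RCLike.re_eq_complex_re, ofReal_re]
    positivity
  have h1 : A ≤ 1 := by
    rw [ContinuousLinearMap.le_def, isPositive_iff_complex]
    intro x
    have e : inner ℂ ((1 - A) x) x = ((‖x‖ ^ 2 - ‖Γ (P x)‖ ^ 2 : ℝ) : ℂ) := by
      have : (1 - A) x = x - A x := rfl
      rw [this, inner_sub_left, hq, inner_self_eq_norm_sq_to_K]; push_cast; rfl
    rw [e]
    refine ⟨by rw [RCLike.re_eq_complex_re, ofReal_re], ?_⟩
    simp only [RCLike.re_eq_complex_re, ofReal_re]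
    have := pow_le_pow_left₀ (norm_nonneg _) (hle x) 2
    linarith
  have hAsa : IsSelfAdjoint A := ((nonneg_iff_isPositive A).1 h0).isSelfAdjoint
  have hspec : spectrum ℝ A ⊆ Icc 0 1 := by
    intro t ht
    refine ⟨spectrum_nonneg_of_nonneg h0 ht, ?_⟩
    have h2 : A ≤ algebraMap ℝ (H →L[ℂ] H) 1 := by
      rw [map_one]; exact h1
    exact (le_algebraMap_iff_spectrum_le (ha := hAsa)).1 h2 t ht
  obtain ⟨ρ, hfin, hρ, hm0, hm1, hu⟩ := exists_resolvent_measure' hAsa hspec (P w)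
  have sol : ∀ s : ℂ, s ≠ 0 → ∀ u : H, s • u - A u = P w →
      P u = u ∧ P (w + Γ u) = s • u := by
    intro s hs u hsu
    have h2 : s • u = P w + A u := by rw [← hsu]; abel
    have h3 : P (s • u) = s • u := by
      rw [h2, map_add, hP2, hAx, hP2]
    have h4 : P u = u := by
      rw [map_smul] at h3
      exact smul_right_injective H hs h3
    refine ⟨h4, ?_⟩
    rw [map_add, h2, hAx, h4]
  have hoff0 : ∀ s : ℂ, Off s → s ≠ 0 := by
    intro s hs h
    exact hs 0 ⟨le_rfl, zero_le_one⟩ (by rw [h]; simp)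
  have hinner : ∀ u : H, P u = u → inner ℂ w u = inner ℂ (P w) u := by
    intro u hu
    rw [hPs, hu]
  refine ⟨ρ, hfin, hρ, hm0, ?_, ?_, ?_⟩
  · rw [hm1]
    have h3 : inner ℂ (P w) (A (P w)) = ((‖Γ (P w)‖ ^ 2 : ℝ) : ℂ) := by
      rw [← inner_conj_symm, hq, hP2, conj_ofReal]
    rw [h3, ofReal_re]
  · intro σ hσ h1σ
    have hoff := off_sp hσ h1σ
    obtain ⟨u, hsu, huv⟩ := hu _ hoff
    obtain ⟨hPu, hPe⟩ := sol _ (hoff0 _ hoff) u hsu
    have h1' : 1 - σ ≠ 0 := sub_ne_zero.2 h1σ.symm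
    have hj : σ • P (w + Γ u) + (w + Γ u - P (w + Γ u)) = w + Γ u - u := by
      rw [hPe]
      have : σ • sp σ • u + (w + Γ u - sp σ • u) = w + Γ u - ((1 - σ) * sp σ) • u := by
        rw [sub_mul, sub_smul, one_mul, smul_smul]; abel
      rw [this]
      have : (1 - σ) * sp σ = 1 := by unfold sp; field_simp
      rw [this, one_smul]
    have h2 := hg σ hσ (w + Γ u) (by rw [add_sub_cancel_left]; exact hΓm u) ?_
    · rw [← h2, hj, inner_sub_right, inner_add_right, hww]
      have h3 : inner ℂ w (Γ u) = (0 : ℂ) := by rw [← hΓs, hΓw, inner_zero_left]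
      rw [h3, hinner u hPu, huv]
      simp
    · rw [hj, ← Submodule.starProjection_apply_eq_zero_iff]
      change Γ (w + Γ u - u) = 0
      rw [map_sub, map_add, hΓw, hΓ2]; simp
  · have h2 := hg 1 (by simp [slitPlane]) w (by rw [sub_self]; exact 𝓖.zero_mem)
      (by simpa using hw𝓖)
    rw [← h2]
    simp only [one_smul, add_sub_cancel]
    exact hww

end W_MP_e98908_an
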