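import Pool.Agent.W_MP_e98908_an_h89.Comp

/-!
# MP_e98908_an : the sum rule for the first moment
-/

namespace W_MP_e98908_an

open MeasureTheory Set Filter Topology Complex UnitAddTorus

/-- the Fourier coefficients of the indicator function of `S` -/
noncomputable def chat (S : Set Cell) (n : Fin 3 → ℤ) : ℂ := fc (S.indicator fun _ => (1 : ℂ)) n

theorem parseval_chi {S : Set Cell} (hS : MeasurableSet S) :
    HasSum (fun n => ‖chat S n‖ ^ 2) (cellMeasure.real S) := by
  have hm : MemLp (S.indicator fun _ => (1 : ℂ)) 2 cellMeasure :=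
    (memLp_const (1 : ℂ)).indicator hS
  set F : Lp ℂ 2 cellMeasure := hm.toLp _ with hF
  have hFc : F =ᵐ[cellMeasure] S.indicator fun _ => (1 : ℂ) := hm.coeFn_toLp
  have h := UnitAddTorus.hasSum_sq_mFourierCoeff (d := Fin 3) (id F)
  have e1 : ∀ n, mFourierCoeff (id F : Lp ℂ 2 cellMeasure) n = chat S n := by
    intro n
    show ∫ t, mFourier (-n) t • F t ∂cellMeasure = _
    unfold chat fc
    apply integral_congr_ae
    filter_upwards [hFc] with t ht
    rw [ht, smul_eq_mul]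
  have e2 : ∫ t, ‖F t‖ ^ 2 ∂cellMeasure = cellMeasure.real S := by
    have : ∫ t, ‖F t‖ ^ 2 ∂cellMeasure = ∫ t, S.indicator (fun _ => (1 : ℝ)) t ∂cellMeasure := by
      apply integral_congr_ae
      filter_upwards [hFc] with t ht
      rw [ht]
      by_cases hs : t ∈ S <;> simp [hs]
    rw [this, integral_indicator hS]
    simp
  rw [← e2]
  have h' : HasSum (fun n => ‖mFourierCoeff (id F : Lp ℂ 2 cellMeasure) n‖ ^ 2)
      (∫ t, ‖F t‖ ^ 2 ∂cellMeasure) := h
  simpa only [e1] using h'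

theorem chat_zero {S : Set Cell} (hS : MeasurableSet S) : chat S 0 = (cellMeasure.real S : ℂ) := by
  unfold chat fc
  rw [neg_zero, mFourier_zero]
  simp only [ContinuousMap.one_apply, one_mul]
  rw [integral_indicator hS]
  simp [Measure.real]

/-- constant unit field in the direction `i` -/
noncomputable def wi (i : Fin 3) : Fld := Wv (EuclideanSpace.single i 1) 0

theorem fc_Pm_wi {S : Set Cell} (hS : MeasurableSet S) (i j : Fin 3) (n : Fin 3 → ℤ) :
    fc (fun x => Pm hS (wi i) x j) n = if j = i then chat S n else 0 := by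
  have h : (fun x => Pm hS (wi i) x j) =ᵐ[cellMeasure]
      fun x => if j = i then S.indicator (fun _ => (1 : ℂ)) x else 0 := by
    filter_upwards [Pm_coe hS (wi i), Wv_coe (EuclideanSpace.single i (1 : ℂ)) 0] with x h1 h2
    rw [h1]
    by_cases hx : x ∈ S
    · rw [indicator_of_mem hx, wi, h2, mFourier_zero]
      by_cases hj : j = i
      · subst hj; simp [hx]
      · simp [hj]
    · rw [indicator_of_notMem hx]
      simp [hx]
  rw [fc_congr h]
  by_cases hj : j = i
  · simp only [hj, if_true]; rfl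
  · simp only [hj, if_false]
    unfold fc; simp

theorem norm_Pm_wi {S : Set Cell} (hS : MeasurableSet S) (i : Fin 3) :
    ‖Pm hS (wi i)‖ ^ 2 = cellMeasure.real S := by
  have h1 : ((‖Pm hS (wi i)‖ ^ 2 : ℝ) : ℂ) = ((cellMeasure.real S : ℝ) : ℂ) := by
    have h2 : inner ℂ (Pm hS (wi i)) (Pm hS (wi i)) = ((‖Pm hS (wi i)‖ ^ 2 : ℝ) : ℂ) := by
      rw [inner_self_eq_norm_sq_to_K]; push_cast; rfl
    rw [← h2, Pm_symm, Pm_idem]
    have h3 : inner ℂ (wi i) (Pm hS (wi i)) = fc (fun x => Pm hS (wi i) x i) 0 :=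
      inner_Wsingle i 0 _
    rw [h3, fc_Pm_wi, if_pos rfl, chat_zero hS]
  exact ofReal_injective h1

theorem norm_wi (i : Fin 3) : ‖wi i‖ = 1 := by
  have h : inner ℂ (wi i) (wi i) = (1 : ℂ) := by
    unfold wi
    rw [inner_WW]; simp
  rw [inner_self_eq_norm_sq_to_K] at h
  have h1 : ((‖wi i‖ ^ 2 : ℝ) : ℂ) = ((1 : ℝ) : ℂ) := by push_cast; exact h
  have h2 : ‖wi i‖ ^ 2 = 1 := by exact_mod_cast h1
  nlinarith [norm_nonneg (wi i)]

section Grad

variable (b : Module.Basis (Fin 3) ℝ (Fin 3 → ℝ))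

theorem wi_orth (i : Fin 3) : wi i ∈ (Grd b)ᗮ := by
  rw [mem_Grd_orthogonal]
  intro n
  unfold wi
  rw [inner_WW]
  by_cases h : (0 : Fin 3 → ℤ) = n
  · subst h; simp [kv_zero]
  · simp [h]

theorem kv_ne_zero {n : Fin 3 → ℤ} (hn : n ≠ 0) : kv b n ≠ 0 := by
  intro h
  apply hn
  have h1 : waveVec b n = 0 := by
    ext i
    have := congrArg (fun v : V3 => v i) h
    simpa [kv] using this
  unfold waveVec at h1
  have h2 := Fintype.linearIndependent_iff.1 b.linearIndependent (fun j => (n j : ℝ)) h1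
  ext j
  exact_mod_cast h2 j

/-- unit wave vector -/
noncomputable def ku (n : Fin 3 → ℤ) : V3 := ((‖kv b n‖ : ℂ)⁻¹) • kv b n

theorem norm_ku {n : Fin 3 → ℤ} (hn : n ≠ 0) : ‖ku b n‖ = 1 := by
  have h := norm_ne_zero_iff.2 (kv_ne_zero b hn)
  unfold ku
  rw [norm_smul, norm_inv, norm_real, norm_norm]
  exact inv_mul_cancel₀ h

theorem Wv_smul (c : ℂ) (a : V3) (n : Fin 3 → ℤ) : Wv (c • a) n = c • Wv a n := by
  apply Lp.ext
  filter_upwards [Wv_coe (c • a) n, Wv_coe a n, Lp.coeFn_smul c (Wv a n)] with x h1 h2 h3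
  rw [h1, h3, Pi.smul_apply, h2, smul_comm]

theorem Wv_mem (n : Fin 3 → ℤ) : Wv (kv b n) n ∈ Grd b :=
  Submodule.le_topologicalClosure _ (Submodule.subset_span ⟨n, rfl⟩)

/-- the orthonormal family of gradient plane waves -/
noncomputable def gv (n : {n : Fin 3 → ℤ // n ≠ 0}) : Grd b :=
  ⟨Wv (ku b n.1) n.1, by
    unfold ku
    rw [Wv_smul]
    exact (Grd b).smul_mem _ (Wv_mem b n.1)⟩

theorem gv_orthonormal : Orthonormal ℂ (gv b) := by
  rw [orthonormal_iff_ite]
  intro n m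
  show inner ℂ (Wv (ku b n.1) n.1) (Wv (ku b m.1) m.1) = _
  rw [inner_WW]
  by_cases h : n = m
  · subst h
    simp only [if_true]
    rw [inner_self_eq_norm_sq_to_K, norm_ku b n.2]
    simp
  · rw [if_neg h, if_neg (fun h' => h (Subtype.ext h'.symm))]

theorem gv_bot : (Submodule.span ℂ (range (gv b)))ᗮ = ⊥ := by
  rw [Submodule.eq_bot_iff]
  intro x hx
  have h1 : (x : Fld) ∈ (Grd b)ᗮ := by
    rw [mem_Grd_orthogonal]
    intro n
    by_cases hn : n = 0
    · subst hn
      rw [kv_zero]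
      have : Wv (0 : V3) (0 : Fin 3 → ℤ) = 0 := by
        have := Wv_smul 0 (0 : V3) (0 : Fin 3 → ℤ)
        simpa using this
      rw [this, inner_zero_left]
    · have h2 : inner ℂ (gv b ⟨n, hn⟩) x = 0 :=
        (Submodule.mem_orthogonal _ _).1 hx _ (Submodule.subset_span ⟨_, rfl⟩)
      have h3 : inner ℂ (Wv (ku b n) n) (x : Fld) = 0 := h2
      unfold ku at h3
      rw [Wv_smul, inner_smul_left] at h3
      rcases mul_eq_zero.1 h3 with h | h
      · exfalso
        have := norm_ne_zero_iff.2 (kv_ne_zero b hn)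
        simp [this] at h
      · exact h
  have h2 : inner ℂ (x : Fld) (x : Fld) = (0 : ℂ) :=
    (Submodule.mem_orthogonal _ _).1 h1 _ x.2
  rw [inner_self_eq_zero] at h2
  exact Subtype.ext h2

noncomputable def gB : HilbertBasis {n : Fin 3 → ℤ // n ≠ 0} ℂ (Grd b) :=
  HilbertBasis.mkOfOrthogonalEqBot (gv_orthonormal b) (gv_bot b)

theorem gB_coe : ⇑(gB b) = gv b := HilbertBasis.coe_mkOfOrthogonalEqBot _ _

theorem proj_sum (x : Fld) :
    HasSum (fun n : {n : Fin 3 → ℤ // n ≠ 0} => ‖inner ℂ (Wv (ku b n.1) n.1) x‖ ^ 2)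
      (‖(Grd b).starProjection x‖ ^ 2) := by
  set y : Grd b := ⟨(Grd b).starProjection x, Submodule.starProjection_apply_mem _ x⟩ with hy
  have h := (gB b).hasSum_inner_mul_inner y y
  rw [gB_coe] at h
  have h1 : ∀ n : {n : Fin 3 → ℤ // n ≠ 0}, inner ℂ (gv b n) y = inner ℂ (Wv (ku b n.1) n.1) x := by
    intro n
    show inner ℂ (Wv (ku b n.1) n.1) ((Grd b).starProjection x) = _
    rw [← Submodule.inner_starProjection_left_eq_right]
    have h4 : (Grd b).starProjection (Wv (ku b n.1) n.1) = Wv (ku b n.1) n.1 :=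
      Submodule.starProjection_eq_self_iff.2 (gv b n).2
    rw [h4]
  have h2 : ∀ n : {n : Fin 3 → ℤ // n ≠ 0}, inner ℂ y (gv b n) * inner ℂ (gv b n) y =
      ((‖inner ℂ (Wv (ku b n.1) n.1) x‖ ^ 2 : ℝ) : ℂ) := by
    intro n
    rw [← inner_conj_symm y (gv b n), h1, mul_comm, mul_conj, Complex.normSq_eq_norm_sq]
  have h3 : inner ℂ y y = ((‖(Grd b).starProjection x‖ ^ 2 : ℝ) : ℂ) := by
    show inner ℂ ((Grd b).starProjection x) ((Grd b).starProjection x) = _
    rw [inner_self_eq_norm_sq_to_K]; push_cast; rfl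
  simp only [h2] at h
  rw [h3] at h
  exact Complex.hasSum_ofReal.1 h

/-- **The sum rule.** -/
theorem sum_rule {S : Set Cell} (hS : MeasurableSet S) :
    ∑ i, ‖(Grd b).starProjection (Pm hS (wi i))‖ ^ 2 =
      cellMeasure.real S - cellMeasure.real S ^ 2 := by
  have h1 := hasSum_sum (s := Finset.univ) fun (i : Fin 3) _ => proj_sum b (Pm hS (wi i))
  have e : ∀ n : {n : Fin 3 → ℤ // n ≠ 0}, ∑ i, ‖inner ℂ (Wv (ku b n.1) n.1) (Pm hS (wi i))‖ ^ 2 =
      ‖chat S n.1‖ ^ 2 := by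
    intro n
    have e1 : ∀ i, inner ℂ (Wv (ku b n.1) n.1) (Pm hS (wi i)) =
        (starRingEnd ℂ) (ku b n.1 i) * chat S n.1 := by
      intro i
      rw [inner_Wv, Finset.sum_eq_single i]
      · rw [fc_Pm_wi, if_pos rfl]
      · intro j _ hj
        rw [fc_Pm_wi, if_neg hj, mul_zero]
      · simp
    simp only [e1, norm_mul, mul_pow, RCLike.norm_conj]
    rw [← Finset.sum_mul]
    have h2 := norm_ku b n.2
    have h3 := EuclideanSpace.norm_sq_eq (ku b n.1)
    rw [h2] at h3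
    rw [← h3]
    simp
  simp only [e] at h1
  have h2 := parseval_chi hS
  have h3 : HasSum (fun n => ‖chat S n‖ ^ 2 - if n = 0 then ‖chat S 0‖ ^ 2 else 0)
      (cellMeasure.real S - ‖chat S 0‖ ^ 2) := h2.sub (hasSum_ite_eq 0 _)
  have h4 : HasSum (fun n : {n : Fin 3 → ℤ // n ≠ 0} => ‖chat S n.1‖ ^ 2)
      (cellMeasure.real S - ‖chat S 0‖ ^ 2) := by
    have := (hasSum_subtype_iff_indicator (f := fun n => ‖chat S n‖ ^ 2)
      (s := {n : Fin 3 → ℤ | n ≠ 0}) (a := cellMeasure.real S - ‖chat S 0‖ ^ 2)).2 ?_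
    · exact this
    · convert h3 using 1
      ext n
      by_cases hn : n = 0
      · subst hn; simp
      · simp [hn]
  rw [h1.unique h4, chat_zero hS]
  simp

end Grad

end W_MP_e98908_an
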