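import Pool.Agent.W_MP_e98908_an_h3.Arc
import Pool.Agent.W_MP_e98908_an_h3.SpecM
import Pool.Agent.W_MP_e98908_an_h3.Ext
import Pool.Agent.W_MP_e98908_an_h3.Trace

/-!
# MP_e98908_an : composites attaining the Bergman-Milton bound
-/

namespace W_MP_e98908_an

open MeasureTheory Set Filter Topology Complex UnitAddTorus

/-- The extremal functions of the (first) Bergman-Milton bound. -/
noncomputable def gBM (f z : ℝ) (σ : ℂ) : ℂ :=
  1 + f * (σ - 1) - f * (1 - f) / 3 * (σ - 1) ^ 2 / (1 + z * (σ - 1))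

theorem comp_hyp_i {b : Module.Basis (Fin 3) ℝ (Fin 3 → ℝ)} {S : Set Cell} (hS : MeasurableSet S)
    {g : ℂ → ℂ}
    (hg : ∀ σ ∈ slitPlane, IsEffectiveTensor b S σ (g σ • (1 : Matrix (Fin 3) (Fin 3) ℂ)))
    (i₀ : Fin 3) :
    ∀ σ ∈ slitPlane, ∀ e, e - wi i₀ ∈ Grd b → (σ • Pm hS e + (e - Pm hS e)) ∈ (Grd b)ᗮ →
      inner ℂ (wi i₀) (σ • Pm hS e + (e - Pm hS e)) = g σ := by
  intro σ hσ e he hj
  have hcoef : ∀ n i, fc (fun x => e x i) n = fc (fun x => wi i₀ x i) n +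
      fc (fun x => (e - wi i₀ : Fld) x i) n := by
    intro n i
    rw [← inner_Wsingle, ← inner_Wsingle, ← inner_Wsingle, ← inner_add_right]
    congr 1
    abel
  have hw : ∀ n i, fc (fun x => wi i₀ x i) n = if (0 : Fin 3 → ℤ) = n then
      (EuclideanSpace.single (i₀ : Fin 3) (1 : ℂ) : V3) i else 0 := fun n i => fc_Wv _ _ _ _
  have hfield : IsElectricField b (Pi.single i₀ 1) (fun i x => e x i) := by
    refine ⟨fun i => memLp_comp e i, fun i => ?_, ?_⟩
    · rw [hcoef, hw, if_pos rfl]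
      obtain ⟨c, hc⟩ := Grd_coeff b he 0
      rw [hc i]
      have : waveVec b 0 i = 0 := by unfold waveVec; simp
      rw [this]
      simp [Pi.single_apply]
    · have h1 : ∀ n : Fin 3 → ℤ, ∃ c : ℂ, n ≠ 0 → ∀ i, fc (fun x => e x i) n =
          c * (waveVec b n i : ℂ) := by
        intro n
        obtain ⟨c, hc⟩ := Grd_coeff b he n
        refine ⟨c, fun hn i => ?_⟩
        rw [hcoef, hw, if_neg (Ne.symm hn), zero_add, hc i]
      choose V hV using h1
      exact ⟨V, fun n hn i => hV n hn i⟩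
  have hdiv : IsDivergenceFree b (fun i x => cond S σ x * e x i) := by
    intro n
    have h1 := (mem_Grd_orthogonal b).1 hj n
    rw [inner_Wv] at h1
    rw [← h1]
    refine Finset.sum_congr rfl fun i _ => ?_
    rw [fc_congr (current_coe hS σ e i)]
    simp [kv]
  have h2 := hg σ hσ (Pi.single i₀ 1) (fun i x => e x i) hfield hdiv i₀
  unfold wi
  rw [inner_Wsingle, fc_congr (current_coe hS σ e i₀), h2]
  simp

/-- **Extremality.** An isotropic composite whose conductivity function takes at one nonreal point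
the value of an extremal function has that conductivity function. -/
theorem eq_gBM {b : Module.Basis (Fin 3) ℝ (Fin 3 → ℝ)} {S : Set Cell} {g : ℂ → ℂ}
    (hg : IsIsotropicComposite b S g) {z : ℝ} (hz0 : 0 < z) (hz1 : z < 1) {σ₀ : ℂ}
    (hσ₀ : σ₀.im ≠ 0) (h : g σ₀ = gBM (cellMeasure.real S) z σ₀) :
    ∀ σ ∈ slitPlane, g σ = gBM (cellMeasure.real S) z σ := by
  obtain ⟨hS, hg⟩ := hg
  set f : ℝ := cellMeasure.real S with hf
  have hsp := fun i => hilbert_spec (Pm_idem hS) (Pm_symm hS) (Grd b) (norm_wi i) (wi_orth b i)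
    (comp_hyp_i hS hg i)
  choose ρ hfin hsupp hm0 hm1 hval hone using hsp
  have hfin' := hfin
  set μ : Measure ℝ := ∑ i, ρ i with hμ
  have : IsFiniteMeasure μ := by rw [hμ]; infer_instance
  have hμsupp : ∀ᵐ y ∂μ, y ∈ Icc (0 : ℝ) 1 := by
    rw [hμ, ← Measure.sum_fintype, Measure.ae_sum_iff]
    exact hsupp
  have hint : ∀ {E : Type} [NormedAddCommGroup E] [NormedSpace ℝ E] (k : ℝ → E),
      ContinuousOn k (Icc 0 1) → ∫ y, k y ∂μ = ∑ i, ∫ y, k y ∂(ρ i) := by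
    intro E _ _ k hk
    rw [hμ]
    exact integral_finsetSum_measure fun i _ => int_cont (hsupp i) hk
  have h0 : μ.real univ = 3 * f := by
    have := hint (fun _ => (1 : ℝ)) continuousOn_const
    simp only [integral_const, smul_eq_mul, mul_one] at this
    rw [this]
    simp only [hm0, norm_Pm_wi hS]
    simp [hf]
  have h1 : ∫ y, y ∂μ = f * (1 - f) := by
    rw [hint (fun y => y) continuousOn_id]
    simp only [hm1]
    rw [sum_rule b hS]
    ring
  have hoffc : ∀ s : ℂ, Off s → ContinuousOn (fun y : ℝ => (s - y)⁻¹) (Icc 0 1) := by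
    intro s hs
    apply ContinuousOn.inv₀
    · fun_prop
    · exact hs
  have hgμ : ∀ σ ∈ slitPlane, σ ≠ 1 → ∫ y, (sp σ - y)⁻¹ ∂μ = 3 * (1 - g σ) := by
    intro σ hσ h1σ
    rw [hint _ (hoffc _ (off_sp hσ h1σ))]
    have : ∀ i, ∫ y, (sp σ - y)⁻¹ ∂(ρ i) = 1 - g σ := by
      intro i
      rw [hval i σ hσ h1σ]; ring
    simp only [this]
    simp
    ring
  -- the extremal functions in terms of `sp`
  have hgz : ∀ σ ∈ slitPlane, σ ≠ 1 → 3 * (1 - gBM f z σ) =
      ((3 * f : ℝ) : ℂ) / sp σ + ((f * (1 - f) : ℝ) : ℂ) / (sp σ * (sp σ - z)) := by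
    intro σ hσ h1σ
    have hoff := off_sp hσ h1σ
    have h1' : 1 - σ ≠ 0 := sub_ne_zero.2 h1σ.symm
    have hsz : sp σ - z ≠ 0 := hoff z ⟨hz0.le, hz1.le⟩
    have hspd : sp σ = 1 / (1 - σ) := by unfold sp; rfl
    have h3 : 1 + z * (σ - 1) ≠ 0 := by
      intro h4
      apply hsz
      rw [hspd, sub_eq_zero, div_eq_iff h1']
      linear_combination h4
    have h5 : (1 - σ) * (sp σ - z) = 1 + z * (σ - 1) := by
      rw [hspd]; field_simp; ring
    have h6 : sp σ - z = (1 + z * (σ - 1)) / (1 - σ) := by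
      rw [eq_div_iff h1', ← h5]; ring
    rw [h6, hspd]
    unfold gBM
    push_cast
    field_simp
    ring
  have hσ₀s : σ₀ ∈ slitPlane := by rw [mem_slitPlane_iff]; exact Or.inr hσ₀
  have hσ₀1 : σ₀ ≠ 1 := by rintro rfl; simp at hσ₀
  have hs₀im : (sp σ₀).im ≠ 0 := by
    have h1' : 1 - σ₀ ≠ 0 := sub_ne_zero.2 hσ₀1.symm
    intro h4
    apply hσ₀
    have h5 : (1 - σ₀) * sp σ₀ = 1 := by unfold sp; field_simp
    have h6 : sp σ₀ = ((sp σ₀).re : ℂ) := by
      apply Complex.ext <;> simp [h4]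
    rw [h6] at h5
    have h7 := congrArg Complex.im h5
    simp only [mul_im, sub_re, one_re, ofReal_im, mul_zero, sub_im, one_im, zero_sub, ofReal_re,
      zero_add] at h7
    rcases mul_eq_zero.1 h7 with h8 | h8
    · linarith
    · exfalso
      rw [h8] at h5
      simp at h5
  have hae := extremal hμsupp hz0 h0 h1 hs₀im (by
    rw [hgμ σ₀ hσ₀s hσ₀1, h, hgz σ₀ hσ₀s hσ₀1])
  intro σ hσ
  by_cases h1σ : σ = 1
  · subst h1σ
    rw [hone 0]
    unfold gBM
    simp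
  · have hoff := off_sp hσ h1σ
    have hs0 : sp σ ≠ 0 := by
      have := hoff 0 ⟨le_rfl, zero_le_one⟩
      simpa using this
    have hsz : sp σ ≠ z := sub_ne_zero.1 (hoff z ⟨hz0.le, hz1.le⟩)
    have hv := extremal_value hz0 h0 h1 hae (int_cont hμsupp continuousOn_id) hs0 hsz
    rw [hgμ σ hσ h1σ, ← hgz σ hσ h1σ] at hv
    have h3 : (3 : ℂ) ≠ 0 := by norm_num
    have := mul_left_cancel₀ h3 hv
    linear_combination -this

/-- The parameters of the theorem. -/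
def InWindow (f z : ℝ) : Prop :=
  ((2 - f) / 4 ≤ z ∧ z ≤ (2 - f) / 3 ∧ z ≤ 1 - f) ∨
    ((2 - f) / 3 ≤ z ∧ 1 - f ≤ z ∧ z ≤ (3 - f) / 4)

theorem lam_gBM {f z : ℝ} (hf0 : 0 < f) (hf1 : f < 1) (h : InWindow f z) :
    ∃ L : CFun, IsLaminate coordDirs L ∧
      ∀ σ ∈ slitPlane, L σ = gBM f z σ • (1 : Matrix (Fin 3) (Fin 3) ℂ) := by
  obtain ⟨L, hL, h'⟩ := arc f z hf0 hf1 h
  exact ⟨L, hL, fun σ hσ => (h' σ hσ).1⟩

theorem comp_gBM {b : Module.Basis (Fin 3) ℝ (Fin 3 → ℝ)} {S : Set Cell} {g : ℂ → ℂ}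
    (hg : IsIsotropicComposite b S g) {z : ℝ} (h : InWindow (cellMeasure.real S) z)
    (hf0 : 0 < cellMeasure.real S) (hf1 : cellMeasure.real S < 1) {σ₀ : ℂ}
    (hσ₀ : σ₀.im ≠ 0) (hv : g σ₀ = gBM (cellMeasure.real S) z σ₀) :
    ∃ L : CFun, IsLaminate coordDirs L ∧
      ∀ σ ∈ slitPlane, L σ = g σ • (1 : Matrix (Fin 3) (Fin 3) ℂ) := by
  have hz : 0 < z ∧ z < 1 := by
    rcases h with ⟨h1, h2, h3⟩ | ⟨h1, h2, h3⟩
    · constructor <;> linarith
    · constructor <;> linarith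
  obtain ⟨L, hL, h'⟩ := lam_gBM hf0 hf1 h
  refine ⟨L, hL, fun σ hσ => ?_⟩
  rw [h' σ hσ, eq_gBM hg hz.1 hz.2 hσ₀ hv σ hσ]

end W_MP_e98908_an
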